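import Mathlib

/-!
# Linear forms in logarithms of rational numbers: notation, the odd series, the passage from a family to a
failure of Lang's inequality
-/

set_option autoImplicit false

open Finset Filter Topology

namespace Pool.Agent.H609.LG

/-- `Λ = ∑ b_j log a_j` -/
noncomputable def form {n : ℕ} (a : Fin n → ℚ) (b : Fin n → ℤ) : ℝ :=
  ∑ j, ((b j : ℤ) : ℝ) * Real.log ((a j : ℚ) : ℝ)

/-- the product of all `B_j = max (|b_j|, 1)` and all `A_j ^ 2`, where `A_j` is the maximum of the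
numerator and the denominator of `a_j > 0` -/
noncomputable def size {n : ℕ} (a : Fin n → ℚ) (b : Fin n → ℤ) : ℝ :=
  (∏ j, ((max (b j).natAbs 1 : ℕ) : ℝ)) *
    (∏ j, (((max (a j).num.natAbs (a j).den : ℕ)) : ℝ) ^ 2)

/-- `B = max B_j` -/
noncomputable def maxB {n : ℕ} (b : Fin n → ℤ) : ℝ :=
  ((Finset.univ.sup fun j => max (b j).natAbs 1 : ℕ) : ℝ)

/-- With `n` terms, the inequality of Lang with the exponent `1 + e` fails in the sharp form. -/
def Sharp (n : ℕ) (e : ℝ) : Prop :=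
  ∃ K : ℝ, ∀ H : ℝ, ∃ (a : Fin n → ℚ) (b : Fin n → ℤ), (∀ j, 0 < a j) ∧ (∀ j, b j ≠ 0) ∧
      H < size a b ∧ form a b ≠ 0 ∧ |form a b| ≤ K * maxB b / size a b ^ (1 + e)

/-- the odd series of `log ((1 + x) / (1 - x))` with remainder -/
theorem series (N : ℕ) (x : ℝ) (h : |x| ≤ 1/2) : ∃ r : ℝ, |r| ≤ 4 ∧
    Real.log ((1 + x) / (1 - x)) =
      2 * ∑ i ∈ range N, x ^ (2 * i + 1) / (2 * i + 1) + r * x ^ (2 * N + 1) := by
  have h1 : |x| < 1 := by linarith
  have key := Real.sum_range_sub_log_div_le h1 N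
  by_cases hx : x = 0
  · subst hx
    refine ⟨0, by norm_num, ?_⟩
    simp
  refine ⟨(Real.log ((1 + x) / (1 - x)) - 2 * ∑ i ∈ range N, x ^ (2 * i + 1) / (2 * i + 1)) /
    x ^ (2 * N + 1), ?_, ?_⟩
  · rw [abs_div, abs_pow, div_le_iff₀ (by positivity)]
    have h2 : |x| ^ (2 * N + 1) / (1 - x ^ 2) ≤ 2 * |x| ^ (2 * N + 1) := by
      have h3 : x ^ 2 ≤ 1/4 := by
        have := pow_le_pow_left₀ (abs_nonneg x) h 2
        rw [sq_abs] at this
        linarith
      rw [div_le_iff₀ (by linarith)]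
      have h4 : 0 ≤ |x| ^ (2 * N + 1) := by positivity
      nlinarith
    have h5 := key.trans h2
    rw [abs_le] at h5 ⊢
    constructor <;> linarith [h5.1, h5.2]
  · field_simp
    ring

theorem log_ratio (t u : ℝ) (ht : 0 < t) :
    Real.log ((t + u)/(t - u)) = Real.log ((1 + u/t) / (1 - u/t)) := by
  congr 1
  have h1 : 1 + u/t = (t+u)/t := by field_simp
  have h2 : 1 - u/t = (t-u)/t := by field_simp
  rw [h1, h2, div_div_div_cancel_right₀ ht.ne']

/-- from a family to the sharp failure -/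
theorem sharp_of_family (n X s : ℕ) (hX : 0 < X) (K : ℝ)
    (h : ∀ H : ℝ, ∃ (a : Fin n → ℚ) (b : Fin n → ℤ) (τ : ℝ), H < τ ∧ (∀ j, 0 < a j) ∧ (∀ j, b j ≠ 0) ∧
      τ ≤ size a b ∧ size a b ≤ K * τ ^ X ∧ form a b ≠ 0 ∧ |form a b| ≤ K * maxB b / τ ^ s) :
    Sharp n ((s : ℝ) / X - 1) := by
  have hX' : (0 : ℝ) < X := by exact_mod_cast hX
  set K1 : ℝ := max K 1 with hK1
  have hK1' : 1 ≤ K1 := le_max_right _ _
  refine ⟨K1 * (K1 ^ ((s : ℝ) / X)), fun H => ?_⟩
  obtain ⟨a, b, τ, h1, h2, h3, h4, h5, h6, h7⟩ := h (max H 1)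
  have hτ1 : 1 < τ := lt_of_le_of_lt (le_max_right _ _) h1
  have hτH : H < τ := lt_of_le_of_lt (le_max_left _ _) h1
  have hτ0 : 0 < τ := by linarith
  refine ⟨a, b, h2, h3, lt_of_lt_of_le hτH h4, h6, h7.trans ?_⟩
  have hs0 : 0 < size a b := lt_of_lt_of_le hτ0 h4
  have hB : 0 ≤ maxB b := by unfold maxB; positivity
  have e1 : size a b ^ (1 + ((s : ℝ) / X - 1)) ≤ K1 ^ ((s : ℝ) / X) * τ ^ s := by
    have e2 : size a b ≤ K1 * τ ^ X := h5.trans (by gcongr; exact le_max_left _ _)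
    have e3 : (1 + ((s : ℝ) / X - 1)) = (s : ℝ) / X := by ring
    rw [e3]
    calc size a b ^ ((s : ℝ) / X) ≤ (K1 * τ ^ X) ^ ((s : ℝ) / X) :=
          Real.rpow_le_rpow hs0.le e2 (by positivity)
      _ = K1 ^ ((s : ℝ) / X) * (τ ^ X) ^ ((s : ℝ) / X) :=
          Real.mul_rpow (by positivity) (by positivity)
      _ = K1 ^ ((s : ℝ) / X) * τ ^ s := by
          congr 1
          rw [← Real.rpow_natCast, ← Real.rpow_mul hτ0.le, ← Real.rpow_natCast τ s]
          congr 1
          field_simp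
  have p1 : 0 < size a b ^ (1 + ((s : ℝ) / X - 1)) := Real.rpow_pos_of_pos hs0 _
  rw [div_le_div_iff₀ (by positivity) p1]
  calc K * maxB b * size a b ^ (1 + ((s : ℝ) / X - 1))
      ≤ K1 * maxB b * (K1 ^ ((s : ℝ) / X) * τ ^ s) := by
        gcongr
        exact le_max_left _ _
    _ = K1 * K1 ^ ((s : ℝ) / X) * maxB b * τ ^ s := by ring

/-- padding by `1 * log 1` -/
theorem Sharp.pad {n : ℕ} {e : ℝ} (h : Sharp n e) (hn : 0 < n) (k : ℕ) : Sharp (n + k) e := by
  obtain ⟨K, hK⟩ := h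
  refine ⟨K, fun H => ?_⟩
  obtain ⟨a, b, h1, h2, h3, h4, h5⟩ := hK H
  set a' : Fin (n + k) → ℚ := Fin.append a (fun _ => 1) with ha'
  set b' : Fin (n + k) → ℤ := Fin.append b (fun _ => 1) with hb'
  have hform : form a' b' = form a b := by
    unfold form
    rw [Fin.sum_univ_add]
    simp only [ha', hb', Fin.append_left, Fin.append_right]
    simp
  have hsize : size a' b' = size a b := by
    unfold size
    rw [Fin.prod_univ_add, Fin.prod_univ_add
      (f := fun j => (((max (a' j).num.natAbs (a' j).den : ℕ)) : ℝ) ^ 2)]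
    simp only [ha', hb', Fin.append_left, Fin.append_right]
    simp
  have hmax : maxB b' = maxB b := by
    unfold maxB
    congr 1
    apply le_antisymm
    · refine Finset.sup_le fun j _ => ?_
      refine Fin.addCases (fun i => ?_) (fun i => ?_) j
      · simp only [hb', Fin.append_left]
        exact Finset.le_sup (f := fun j => max (b j).natAbs 1) (Finset.mem_univ _)
      · simp only [hb', Fin.append_right]
        have e1 : max (b ⟨0, hn⟩).natAbs 1 ≤ (Finset.univ.sup fun j => max (b j).natAbs 1) :=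
          Finset.le_sup (f := fun j => max (b j).natAbs 1) (Finset.mem_univ _)
        refine le_trans ?_ e1
        simp
    · refine Finset.sup_le fun j _ => ?_
      have e1 : max (b' (Fin.castAdd k j)).natAbs 1 ≤ (Finset.univ.sup fun j => max (b' j).natAbs 1) :=
          Finset.le_sup (f := fun j => max (b' j).natAbs 1) (Finset.mem_univ _)
      simpa only [hb', Fin.append_left] using e1
  refine ⟨a', b', fun j => ?_, fun j => ?_, by rwa [hsize], by rwa [hform], by rwa [hform, hsize, hmax]⟩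
  · refine Fin.addCases (fun i => ?_) (fun i => ?_) j
    · rw [ha', Fin.append_left]; exact h1 i
    · rw [ha', Fin.append_right]; norm_num
  · refine Fin.addCases (fun i => ?_) (fun i => ?_) j
    · rw [hb', Fin.append_left]; exact h2 i
    · rw [hb', Fin.append_right]; norm_num

/-- the sharp failure implies the failure for all smaller exponents and all constants -/
theorem Sharp.strict {n : ℕ} {e : ℝ} (h : Sharp n e) (hn : 0 < n) (ε C H : ℝ) (hε : ε < e) (hC : 0 < C) :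
    ∃ (a : Fin n → ℚ) (b : Fin n → ℤ), (∀ j, 0 < a j) ∧
      (∀ j, b j ≠ 0) ∧ H < size a b ∧ form a b ≠ 0 ∧
      |form a b| < C ^ n * maxB b / size a b ^ (1 + ε) := by
  obtain ⟨K, main⟩ := h
  have hlim := (tendsto_rpow_atTop (show (0 : ℝ) < e - ε by linarith)).eventually_gt_atTop
    (K / C ^ n)
  obtain ⟨T, hT⟩ := Filter.eventually_atTop.1 hlim
  obtain ⟨a, b, h1, h2, h3, h4, h5⟩ := main (max (max H T) 1)
  have hX1 : 1 < size a b := lt_of_le_of_lt (le_max_right _ _) h3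
  have hXH : H < size a b := lt_of_le_of_lt ((le_max_left _ _).trans (le_max_left _ _)) h3
  have hXT : T < size a b := lt_of_le_of_lt ((le_max_right _ _).trans (le_max_left _ _)) h3
  have hX0 : 0 < size a b := one_pos.trans hX1
  refine ⟨a, b, h1, h2, hXH, h4, lt_of_le_of_lt h5 ?_⟩
  have h6 := hT _ hXT.le
  have hCn : 0 < C ^ n := by positivity
  rw [div_lt_iff₀ hCn] at h6
  have hB : 0 < maxB b := by
    have e0 : 1 ≤ (Finset.univ.sup fun j => max (b j).natAbs 1) := by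
      have e1 : max (b ⟨0, hn⟩).natAbs 1 ≤ (Finset.univ.sup fun j => max (b j).natAbs 1) :=
        Finset.le_sup (f := fun j => max (b j).natAbs 1) (Finset.mem_univ _)
      exact le_trans (le_max_right _ _) e1
    unfold maxB
    exact_mod_cast e0
  have e1 : size a b ^ (1 + e) = size a b ^ (1 + ε) * size a b ^ (e - ε) := by
    rw [← Real.rpow_add hX0]
    congr 1
    ring
  have p1 : 0 < size a b ^ (1 + ε) := Real.rpow_pos_of_pos hX0 _
  have p2 : 0 < size a b ^ (1 + e) := Real.rpow_pos_of_pos hX0 _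
  rw [div_lt_div_iff₀ p2 p1, e1]
  calc K * maxB b * size a b ^ (1 + ε)
      < (size a b ^ (e - ε) * C ^ n) * maxB b * size a b ^ (1 + ε) := by gcongr
    _ = C ^ n * maxB b * (size a b ^ (1 + ε) * size a b ^ (e - ε)) := by ring

/-- the height of a quotient of two positive integers -/
theorem height_div_le (p q : ℤ) (hp : 0 < p) (hq : 0 < q) (M : ℝ) (h1 : (p : ℝ) ≤ M) (h2 : (q : ℝ) ≤ M) :
    ((max ((p : ℚ) / (q : ℚ)).num.natAbs ((p : ℚ) / (q : ℚ)).den : ℕ) : ℝ) ≤ M := by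
  have hd : ((((p : ℚ) / (q : ℚ)).den : ℕ) : ℤ) ∣ q := by
    rw [← Rat.divInt_eq_div]
    exact Rat.den_dvd _ _
  have hn : ((p : ℚ) / (q : ℚ)).num ∣ p := by
    rw [← Rat.divInt_eq_div]
    exact Rat.num_dvd _ hq.ne'
  have hpos : (0 : ℚ) < (p : ℚ) / (q : ℚ) := by
    apply div_pos <;> exact_mod_cast (by assumption)
  have hd' := Int.le_of_dvd hq hd
  have hn0 : 0 < ((p : ℚ) / (q : ℚ)).num := Rat.num_pos.2 hpos
  have hn' := Int.le_of_dvd hp hn
  push_cast
  rw [max_le_iff]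
  constructor
  · have e1 : ((((p : ℚ) / (q : ℚ)).num.natAbs : ℕ) : ℝ) = ((((p : ℚ) / (q : ℚ)).num : ℤ) : ℝ) := by
      rw [Nat.cast_natAbs, abs_of_pos hn0]
    rw [e1]
    exact le_trans (by exact_mod_cast hn') h1
  · refine le_trans ?_ h2
    have e2 : ((((p : ℚ) / (q : ℚ)).den : ℕ) : ℝ) = ((((((p : ℚ) / (q : ℚ)).den : ℕ) : ℤ)) : ℝ) := by
      push_cast; rfl
    rw [e2]
    exact_mod_cast hd'

theorem one_le_height (q : ℚ) : (1:ℝ) ≤ ((max q.num.natAbs q.den : ℕ) : ℝ) := by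
  exact_mod_cast le_trans q.pos (le_max_right _ _)

theorem one_le_B (b : ℤ) : (1:ℝ) ≤ ((max b.natAbs 1 : ℕ) : ℝ) := by
  exact_mod_cast le_max_right _ _

theorem B_le (b : ℤ) (M : ℝ) (h : |(b:ℝ)| ≤ M) (hM : 1 ≤ M) : ((max b.natAbs 1 : ℕ) : ℝ) ≤ M := by
  push_cast
  rw [max_le_iff]
  refine ⟨?_, hM⟩
  rw [Nat.cast_natAbs]
  exact_mod_cast h

theorem le_B (b : ℤ) (M : ℝ) (h : M ≤ |(b:ℝ)|) : M ≤ ((max b.natAbs 1 : ℕ) : ℝ) := by
  push_cast
  refine le_trans ?_ (le_max_left _ _)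
  rw [Nat.cast_natAbs]
  exact_mod_cast h

theorem le_maxB {n : ℕ} (b : Fin n → ℤ) (j : Fin n) : ((max (b j).natAbs 1 : ℕ) : ℝ) ≤ maxB b := by
  unfold maxB
  exact_mod_cast Finset.le_sup (f := fun j => max (b j).natAbs 1) (Finset.mem_univ j)

end Pool.Agent.H609.LG
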