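import Pool.Agent.H609.LG.Four

/-!
# The family with five terms
-/

set_option autoImplicit false

open Finset Filter Topology

namespace Pool.Agent.H609.LG

/-- the linear form with five terms -/
noncomputable def lam5 (t : ℝ) : ℝ :=
  (-97243685825 + (-2737631) * t^2) * Real.log ((t + 55) / (t - 55)) +
    (116962627839 + (-2737631) * t^2) * Real.log ((t + 57) / (t - 57)) +
    (-31797798144 + (2737631) * t^2) * Real.log ((t + 112) / (t - 112)) +
    13212879680 * Real.log ((t + 97) / (t - 97))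

theorem lam5_eq (w : ℝ) (hw : 0 < w) (hw1 : w ≤ 1/300) : ∃ R : ℝ, |R| ≤ 10^43 ∧
    lam5 (1/w) * (1/w)^13 = 599388111657824261552320020480000 + w^2 * R := by
  have l55 : Real.log ((1/w + 55) / (1/w - 55)) = Real.log ((1 + 55 * w) / (1 - 55 * w)) := by
    rw [log_ratio (1/w) 55 (by positivity)]
    congr 2 <;> field_simp
  have l57 : Real.log ((1/w + 57) / (1/w - 57)) = Real.log ((1 + 57 * w) / (1 - 57 * w)) := by
    rw [log_ratio (1/w) 57 (by positivity)]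
    congr 2 <;> field_simp
  have l112 : Real.log ((1/w + 112) / (1/w - 112)) = Real.log ((1 + 112 * w) / (1 - 112 * w)) := by
    rw [log_ratio (1/w) 112 (by positivity)]
    congr 2 <;> field_simp
  have l97 : Real.log ((1/w + 97) / (1/w - 97)) = Real.log ((1 + 97 * w) / (1 - 97 * w)) := by
    rw [log_ratio (1/w) 97 (by positivity)]
    congr 2 <;> field_simp
  obtain ⟨s55, hs55, k55⟩ := series 8 (55 * w) (by rw [abs_of_nonneg (by positivity)]; linarith)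
  obtain ⟨r55, hr55, h55⟩ := series 7 (55 * w) (by rw [abs_of_nonneg (by positivity)]; linarith)
  obtain ⟨s57, hs57, k57⟩ := series 8 (57 * w) (by rw [abs_of_nonneg (by positivity)]; linarith)
  obtain ⟨r57, hr57, h57⟩ := series 7 (57 * w) (by rw [abs_of_nonneg (by positivity)]; linarith)
  obtain ⟨s112, hs112, k112⟩ := series 8 (112 * w) (by rw [abs_of_nonneg (by positivity)]; linarith)
  obtain ⟨r112, hr112, h112⟩ := series 7 (112 * w) (by rw [abs_of_nonneg (by positivity)]; linarith)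
  obtain ⟨r97, hr97, h97⟩ := series 7 (97 * w) (by rw [abs_of_nonneg (by positivity)]; linarith)
  refine ⟨(-2737631) * 55^17 * s55 + (-97243685825) * 55^15 * r55 + (-2737631) * 57^17 * s57 + (116962627839) * 57^15 * r57 + (2737631) * 112^17 * s112 + (-31797798144) * 112^15 * r112 + 13212879680 * 97^15 * r97, ?_, ?_⟩
  · rw [abs_le] at *
    constructor <;> linarith [hs55.1, hs55.2, hr55.1, hr55.2, hs57.1, hs57.2, hr57.1, hr57.2, hs112.1, hs112.2, hr112.1, hr112.2, hr97.1, hr97.2]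
  have e1 : lam5 (1/w) = (-2737631) * (1/w)^2 * Real.log ((1 + 55 * w) / (1 - 55 * w)) + (-97243685825) * Real.log ((1 + 55 * w) / (1 - 55 * w)) +
    (-2737631) * (1/w)^2 * Real.log ((1 + 57 * w) / (1 - 57 * w)) + (116962627839) * Real.log ((1 + 57 * w) / (1 - 57 * w)) +
    (2737631) * (1/w)^2 * Real.log ((1 + 112 * w) / (1 - 112 * w)) + (-31797798144) * Real.log ((1 + 112 * w) / (1 - 112 * w)) +
    13212879680 * Real.log ((1 + 97 * w) / (1 - 97 * w)) := by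
    unfold lam5
    rw [l55, l57, l112, l97]
    ring
  have e2 : lam5 (1/w) = (-2737631) * (1/w)^2 * (2 * ∑ i ∈ range 8, (55 * w) ^ (2 * i + 1) / (2 * (i:ℝ) + 1) + s55 * (55 * w) ^ (2 * 8 + 1)) + (-97243685825) * (2 * ∑ i ∈ range 7, (55 * w) ^ (2 * i + 1) / (2 * (i:ℝ) + 1) + r55 * (55 * w) ^ (2 * 7 + 1)) +
    (-2737631) * (1/w)^2 * (2 * ∑ i ∈ range 8, (57 * w) ^ (2 * i + 1) / (2 * (i:ℝ) + 1) + s57 * (57 * w) ^ (2 * 8 + 1)) + (116962627839) * (2 * ∑ i ∈ range 7, (57 * w) ^ (2 * i + 1) / (2 * (i:ℝ) + 1) + r57 * (57 * w) ^ (2 * 7 + 1)) +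
    (2737631) * (1/w)^2 * (2 * ∑ i ∈ range 8, (112 * w) ^ (2 * i + 1) / (2 * (i:ℝ) + 1) + s112 * (112 * w) ^ (2 * 8 + 1)) + (-31797798144) * (2 * ∑ i ∈ range 7, (112 * w) ^ (2 * i + 1) / (2 * (i:ℝ) + 1) + r112 * (112 * w) ^ (2 * 7 + 1)) +
    13212879680 * (2 * ∑ i ∈ range 7, (97 * w) ^ (2 * i + 1) / (2 * (i:ℝ) + 1) + r97 * (97 * w) ^ (2 * 7 + 1)) := by
    rw [e1, ← k55, ← h55, ← k57, ← h57, ← k112, ← h112, ← h97]
  rw [e2]
  simp only [Finset.sum_range_succ, Finset.sum_range_zero]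
  push_cast
  field_simp
  ring

theorem five_large (t : ℝ) (ht : 10^6 ≤ t) : 0 < lam5 t ∧ lam5 t ≤ 10^33 / t^13 := by
  have ht0 : 0 < t := by linarith
  obtain ⟨R, hR, h⟩ := lam5_eq (1/t) (by positivity) (by
    rw [div_le_div_iff₀ ht0 (by norm_num)]; linarith)
  rw [one_div_one_div] at h
  have hw : (1/t)^2 ≤ 1/10^12 := by
    calc (1/t)^2 ≤ (1/10^6)^2 := by gcongr
      _ = 1/10^12 := by norm_num
  have hw0 : 0 ≤ (1/t)^2 := by positivity
  have hb : |(1/t)^2 * R| ≤ 10^31 := by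
    rw [abs_mul, abs_of_nonneg hw0]
    calc (1/t)^2 * |R| ≤ (1/10^12) * 10^43 := by gcongr
      _ = 10^31 := by norm_num
  rw [abs_le] at hb
  have p7 : 0 < t^13 := by positivity
  refine ⟨(mul_pos_iff_of_pos_right p7).1 ?_, ?_⟩
  · rw [h]; linarith [hb.1]
  · rw [le_div_iff₀ p7, h]; linarith [hb.2]

theorem sharp_five : Sharp 5 (2/13) := by
  have key := sharp_of_family 5 13 15 (by norm_num) (10^60) (fun H => by
    obtain ⟨N, hN⟩ := exists_nat_gt (max H (10^6))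
    obtain ⟨x, y, hy1, hy0, hxy, hp⟩ := pell N
    obtain ⟨t, ht⟩ : ∃ t : ℤ, t = 97 * (2 * x^2 - 1) := ⟨_, rfl⟩
    have hx0 : 0 < x := by linarith
    have hx1 : 1 ≤ x := by linarith
    have hNt : (N : ℤ) ≤ t := by
      rw [ht]
      nlinarith
    have htr : (N : ℝ) ≤ t := by exact_mod_cast hNt
    have hH : H < t := lt_of_lt_of_le (lt_of_le_of_lt (le_max_left _ _) hN) htr
    have hTt : (10:ℝ)^6 ≤ t := ((lt_of_le_of_lt (le_max_right _ _) hN).le).trans htr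
    have hTt' : (10:ℤ)^6 ≤ t := by exact_mod_cast hTt
    obtain ⟨h6, h7⟩ := five_large t hTt
    have ht0 : (0:ℝ) < t := by linarith
    have hxr : (0:ℝ) < x := by exact_mod_cast hx0
    have hyr : (0:ℝ) < y := by exact_mod_cast hy0
    have htx : (t:ℝ) = 97 * (2 * (x:ℝ)^2 - 1) := by rw [ht]; push_cast; ring
    have hpr : (x:ℝ)^2 - 2 * (y:ℝ)^2 = 1 := by exact_mod_cast hp
    have ht2 : (10:ℝ)^12 ≤ (t:ℝ)^2 := by
      calc (10:ℝ)^12 = (10^6)^2 := by norm_num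
        _ ≤ (t:ℝ)^2 := by gcongr
    have ht2' : (10:ℤ)^12 ≤ t^2 := by exact_mod_cast ht2
    have htt : (t:ℝ) ≤ (t:ℝ)^2 := by nlinarith
    norm_num at hTt hTt' ht2 ht2'
    have hA1 : ((max (((t + 55 : ℤ) : ℚ) / ((t - 55 : ℤ) : ℚ)).num.natAbs (((t + 55 : ℤ) : ℚ) / ((t - 55 : ℤ) : ℚ)).den : ℕ) : ℝ) ≤ 2 * t := by
      refine height_div_le _ _ (by linarith) (by linarith) _ ?_ ?_ <;> push_cast <;> linarith
    have hA2 : ((max (((t + 57 : ℤ) : ℚ) / ((t - 57 : ℤ) : ℚ)).num.natAbs (((t + 57 : ℤ) : ℚ) / ((t - 57 : ℤ) : ℚ)).den : ℕ) : ℝ) ≤ 2 * t := by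
      refine height_div_le _ _ (by linarith) (by linarith) _ ?_ ?_ <;> push_cast <;> linarith
    have hA3 : ((max (((t + 112 : ℤ) : ℚ) / ((t - 112 : ℤ) : ℚ)).num.natAbs (((t + 112 : ℤ) : ℚ) / ((t - 112 : ℤ) : ℚ)).den : ℕ) : ℝ) ≤ 2 * t := by
      refine height_div_le _ _ (by linarith) (by linarith) _ ?_ ?_ <;> push_cast <;> linarith
    have hA4 : ((max (((x : ℤ) : ℚ) / ((y : ℤ) : ℚ)).num.natAbs (((x : ℤ) : ℚ) / ((y : ℤ) : ℚ)).den : ℕ) : ℝ) ≤ x := by
      refine height_div_le _ _ hx0 hy0 _ le_rfl (by exact_mod_cast hxy)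
    have hA1' := one_le_height (((t + 55 : ℤ) : ℚ) / ((t - 55 : ℤ) : ℚ))
    have hA2' := one_le_height (((t + 57 : ℤ) : ℚ) / ((t - 57 : ℤ) : ℚ))
    have hA3' := one_le_height (((t + 112 : ℤ) : ℚ) / ((t - 112 : ℤ) : ℚ))
    have hA4' := one_le_height (((x : ℤ) : ℚ) / ((y : ℤ) : ℚ))
    have hB1 : ((max ((-97243685825 + (-2737631) * t^2)).natAbs 1 : ℕ) : ℝ) ≤ 10^7 * (t:ℝ)^2 := by
      refine B_le _ _ ?_ (by linarith)
      push_cast
      rw [abs_le]; constructor <;> linarith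
    have hB1' : (t:ℝ)^2 ≤ ((max ((-97243685825 + (-2737631) * t^2)).natAbs 1 : ℕ) : ℝ) := by
      refine le_B _ _ ?_
      push_cast
      rw [le_abs]
      right
      linarith
    have hB2 : ((max ((116962627839 + (-2737631) * t^2)).natAbs 1 : ℕ) : ℝ) ≤ 10^7 * (t:ℝ)^2 := by
      refine B_le _ _ ?_ (by linarith)
      push_cast
      rw [abs_le]; constructor <;> linarith
    have hB2' : (t:ℝ)^2 ≤ ((max ((116962627839 + (-2737631) * t^2)).natAbs 1 : ℕ) : ℝ) := by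
      refine le_B _ _ ?_
      push_cast
      rw [le_abs]
      right
      linarith
    have hB3 : ((max ((-31797798144 + (2737631) * t^2)).natAbs 1 : ℕ) : ℝ) ≤ 10^7 * (t:ℝ)^2 := by
      refine B_le _ _ ?_ (by linarith)
      push_cast
      rw [abs_le]; constructor <;> linarith
    have hB3' : (t:ℝ)^2 ≤ ((max ((-31797798144 + (2737631) * t^2)).natAbs 1 : ℕ) : ℝ) := by
      refine le_B _ _ ?_
      push_cast
      rw [le_abs]
      left
      linarith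
    have hlog : Real.log (((t:ℝ) + 97) / ((t:ℝ) - 97)) = 2 * Real.log ((x:ℝ) / y) - Real.log 2 := by
      rw [htx]
      exact log_pell _ _ 97 hxr hyr (by norm_num) hpr
    have hform : form ![((t + 55 : ℤ) : ℚ) / ((t - 55 : ℤ) : ℚ), ((t + 57 : ℤ) : ℚ) / ((t - 57 : ℤ) : ℚ), ((t + 112 : ℤ) : ℚ) / ((t - 112 : ℤ) : ℚ), ((x : ℤ) : ℚ) / ((y : ℤ) : ℚ), 2]
        ![(-97243685825 + (-2737631) * t^2), (116962627839 + (-2737631) * t^2), (-31797798144 + (2737631) * t^2), 26425759360, -13212879680] = lam5 t := by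
      unfold form lam5
      rw [Fin.sum_univ_five, hlog]
      simp
      ring
    have hsize : size ![((t + 55 : ℤ) : ℚ) / ((t - 55 : ℤ) : ℚ), ((t + 57 : ℤ) : ℚ) / ((t - 57 : ℤ) : ℚ), ((t + 112 : ℤ) : ℚ) / ((t - 112 : ℤ) : ℚ), ((x : ℤ) : ℚ) / ((y : ℤ) : ℚ), 2]
        ![(-97243685825 + (-2737631) * t^2), (116962627839 + (-2737631) * t^2), (-31797798144 + (2737631) * t^2), 26425759360, -13212879680] =
        (((max ((-97243685825 + (-2737631) * t^2)).natAbs 1 : ℕ) : ℝ) * ((max ((116962627839 + (-2737631) * t^2)).natAbs 1 : ℕ) : ℝ) * ((max ((-31797798144 + (2737631) * t^2)).natAbs 1 : ℕ) : ℝ) * ((max (26425759360:ℤ).natAbs 1 : ℕ) : ℝ) * ((max (-13212879680:ℤ).natAbs 1 : ℕ) : ℝ)) *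
        (((max (((t + 55 : ℤ) : ℚ) / ((t - 55 : ℤ) : ℚ)).num.natAbs (((t + 55 : ℤ) : ℚ) / ((t - 55 : ℤ) : ℚ)).den : ℕ) : ℝ)^2 * ((max (((t + 57 : ℤ) : ℚ) / ((t - 57 : ℤ) : ℚ)).num.natAbs (((t + 57 : ℤ) : ℚ) / ((t - 57 : ℤ) : ℚ)).den : ℕ) : ℝ)^2 * ((max (((t + 112 : ℤ) : ℚ) / ((t - 112 : ℤ) : ℚ)).num.natAbs (((t + 112 : ℤ) : ℚ) / ((t - 112 : ℤ) : ℚ)).den : ℕ) : ℝ)^2 * ((max (((x : ℤ) : ℚ) / ((y : ℤ) : ℚ)).num.natAbs (((x : ℤ) : ℚ) / ((y : ℤ) : ℚ)).den : ℕ) : ℝ)^2 * ((max (2:ℚ).num.natAbs (2:ℚ).den : ℕ) : ℝ)^2) := by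
      unfold size
      rw [Fin.prod_univ_five, Fin.prod_univ_five]
      rfl
    have hD : ((max (26425759360:ℤ).natAbs 1 : ℕ) : ℝ) = 26425759360 := by
      have : (max (26425759360:ℤ).natAbs 1 : ℕ) = 26425759360 := by rfl
      rw [this]; norm_num
    have hD' : ((max (-13212879680:ℤ).natAbs 1 : ℕ) : ℝ) = 13212879680 := by
      have : (max (-13212879680:ℤ).natAbs 1 : ℕ) = 13212879680 := by rfl
      rw [this]; norm_num
    have hmB := le_maxB ![(-97243685825 + (-2737631) * t^2), (116962627839 + (-2737631) * t^2), (-31797798144 + (2737631) * t^2), 26425759360, -13212879680] 0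
    have hmB' : (t:ℝ)^2 ≤ maxB ![(-97243685825 + (-2737631) * t^2), (116962627839 + (-2737631) * t^2), (-31797798144 + (2737631) * t^2), 26425759360, -13212879680] := hB1'.trans hmB
    refine ⟨![((t + 55 : ℤ) : ℚ) / ((t - 55 : ℤ) : ℚ), ((t + 57 : ℤ) : ℚ) / ((t - 57 : ℤ) : ℚ), ((t + 112 : ℤ) : ℚ) / ((t - 112 : ℤ) : ℚ), ((x : ℤ) : ℚ) / ((y : ℤ) : ℚ), 2],
      ![(-97243685825 + (-2737631) * t^2), (116962627839 + (-2737631) * t^2), (-31797798144 + (2737631) * t^2), 26425759360, -13212879680], t, hH, ?_, ?_, ?_, ?_, ?_, ?_⟩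
    · intro j
      fin_cases j
      · refine div_pos ?_ ?_
        · exact_mod_cast (by linarith : 0 < t + 55)
        · exact_mod_cast (by linarith : 0 < t - 55)
      · refine div_pos ?_ ?_
        · exact_mod_cast (by linarith : 0 < t + 57)
        · exact_mod_cast (by linarith : 0 < t - 57)
      · refine div_pos ?_ ?_
        · exact_mod_cast (by linarith : 0 < t + 112)
        · exact_mod_cast (by linarith : 0 < t - 112)
      · refine div_pos ?_ ?_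
        · exact_mod_cast hx0
        · exact_mod_cast hy0
      · norm_num
    · intro j
      fin_cases j
      · exact (by linarith : (-97243685825 + (-2737631) * t^2) < (0:ℤ)).ne
      · exact (by linarith : (116962627839 + (-2737631) * t^2) < (0:ℤ)).ne
      · exact (by linarith : (0:ℤ) < (-31797798144 + (2737631) * t^2)).ne'
      · norm_num
      · norm_num
    · rw [hsize, hD, hD', height_two]
      generalize ((max (((t + 55 : ℤ) : ℚ) / ((t - 55 : ℤ) : ℚ)).num.natAbs (((t + 55 : ℤ) : ℚ) / ((t - 55 : ℤ) : ℚ)).den : ℕ) : ℝ) = A1 at *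
      generalize ((max (((t + 57 : ℤ) : ℚ) / ((t - 57 : ℤ) : ℚ)).num.natAbs (((t + 57 : ℤ) : ℚ) / ((t - 57 : ℤ) : ℚ)).den : ℕ) : ℝ) = A2 at *
      generalize ((max (((t + 112 : ℤ) : ℚ) / ((t - 112 : ℤ) : ℚ)).num.natAbs (((t + 112 : ℤ) : ℚ) / ((t - 112 : ℤ) : ℚ)).den : ℕ) : ℝ) = A3 at *
      generalize ((max (((x : ℤ) : ℚ) / ((y : ℤ) : ℚ)).num.natAbs (((x : ℤ) : ℚ) / ((y : ℤ) : ℚ)).den : ℕ) : ℝ) = A4 at *
      generalize ((max ((-97243685825 + (-2737631) * t^2)).natAbs 1 : ℕ) : ℝ) = B1 at *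
      generalize ((max ((116962627839 + (-2737631) * t^2)).natAbs 1 : ℕ) : ℝ) = B2 at *
      generalize ((max ((-31797798144 + (2737631) * t^2)).natAbs 1 : ℕ) : ℝ) = B3 at *
      have hB10 : 0 ≤ B1 := by linarith
      have hB20 : 0 ≤ B2 := by linarith
      have hB30 : 0 ≤ B3 := by linarith
      calc (t:ℝ) ≤ ((t:ℝ)^2 * 1 * 1 * 1 * 1) * (1^2 * 1^2 * 1^2 * 1^2 * 1^2) := by linarith
        _ ≤ _ := by gcongr <;> first | assumption | linarith | norm_num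
    · rw [hsize, hD, hD', height_two]
      generalize ((max (((t + 55 : ℤ) : ℚ) / ((t - 55 : ℤ) : ℚ)).num.natAbs (((t + 55 : ℤ) : ℚ) / ((t - 55 : ℤ) : ℚ)).den : ℕ) : ℝ) = A1 at *
      generalize ((max (((t + 57 : ℤ) : ℚ) / ((t - 57 : ℤ) : ℚ)).num.natAbs (((t + 57 : ℤ) : ℚ) / ((t - 57 : ℤ) : ℚ)).den : ℕ) : ℝ) = A2 at *
      generalize ((max (((t + 112 : ℤ) : ℚ) / ((t - 112 : ℤ) : ℚ)).num.natAbs (((t + 112 : ℤ) : ℚ) / ((t - 112 : ℤ) : ℚ)).den : ℕ) : ℝ) = A3 at *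
      generalize ((max (((x : ℤ) : ℚ) / ((y : ℤ) : ℚ)).num.natAbs (((x : ℤ) : ℚ) / ((y : ℤ) : ℚ)).den : ℕ) : ℝ) = A4 at *
      generalize ((max ((-97243685825 + (-2737631) * t^2)).natAbs 1 : ℕ) : ℝ) = B1 at *
      generalize ((max ((116962627839 + (-2737631) * t^2)).natAbs 1 : ℕ) : ℝ) = B2 at *
      generalize ((max ((-31797798144 + (2737631) * t^2)).natAbs 1 : ℕ) : ℝ) = B3 at *
      have hB10 : 0 ≤ B1 := by linarith
      have hB20 : 0 ≤ B2 := by linarith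
      have hB30 : 0 ≤ B3 := by linarith
      have hx2 : (x:ℝ)^2 ≤ t := by rw [htx]; nlinarith [hpr, sq_nonneg (y:ℝ)]
      calc _ ≤ ((10^7 * (t:ℝ)^2) * (10^7 * (t:ℝ)^2) * (10^7 * (t:ℝ)^2) * 26425759360 * 13212879680) *
            ((2 * t)^2 * (2 * t)^2 * (2 * t)^2 * (x:ℝ)^2 * 2^2) := by
            gcongr
        _ ≤ ((10^7 * (t:ℝ)^2) * (10^7 * (t:ℝ)^2) * (10^7 * (t:ℝ)^2) * 26425759360 * 13212879680) *
            ((2 * t)^2 * (2 * t)^2 * (2 * t)^2 * (t:ℝ) * 2^2) := by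
            gcongr
        _ = (10^21 * 26425759360 * 13212879680 * 4 * 4 * 4 * 4) * (t:ℝ)^13 := by ring
        _ ≤ 10^60 * (t:ℝ)^13 := by gcongr; norm_num
    · rw [hform]; exact h6.ne'
    · rw [hform, abs_of_pos h6]
      refine h7.trans ?_
      rw [div_le_div_iff₀ (by positivity) (by positivity)]
      calc 10^33 * (t:ℝ)^15 = 10^33 * (t:ℝ)^2 * (t:ℝ)^13 := by ring
        _ ≤ 10^60 * maxB ![(-97243685825 + (-2737631) * t^2), (116962627839 + (-2737631) * t^2), (-31797798144 + (2737631) * t^2), 26425759360, -13212879680] * (t:ℝ)^13 := by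
            gcongr <;> first | assumption | norm_num)
  convert key using 1
  norm_num

end Pool.Agent.H609.LG
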