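import Pool.Agent.H609.LG.TwoFam

/-!
# The family with four terms
-/

set_option autoImplicit false

open Finset Filter Topology

namespace Pool.Agent.H609.LG

/-- the series of `log (1 - y)` with remainder -/
theorem series2 (N : ℕ) (y : ℝ) (h : |y| ≤ 1/2) : ∃ r : ℝ, |r| ≤ 4 ∧
    Real.log (1 - y) = - ∑ i ∈ range N, y ^ (i + 1) / (i + 1) + r * y ^ (N + 1) := by
  have h1 : |y| < 1 := by linarith
  have key := Real.abs_log_sub_add_sum_range_le h1 N
  by_cases hx : y = 0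
  · subst hx
    refine ⟨0, by norm_num, ?_⟩
    simp
  refine ⟨(Real.log (1 - y) + ∑ i ∈ range N, y ^ (i + 1) / (i + 1)) / y ^ (N + 1), ?_, ?_⟩
  · rw [abs_div, abs_pow, div_le_iff₀ (by positivity)]
    have h2 : |y| ^ (N + 1) / (1 - |y|) ≤ 4 * |y| ^ (N + 1) := by
      rw [div_le_iff₀ (by linarith)]
      have h4 : 0 ≤ |y| ^ (N + 1) := by positivity
      nlinarith
    have h5 := key.trans h2
    rw [add_comm]
    exact h5
  · field_simp
    ring

/-- the linear form with four terms -/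
noncomputable def lam4 (t : ℝ) : ℝ :=
  (45 * t - 425) * Real.log ((t + 3) / (t - 11)) + (45 * t + 425) * Real.log ((t - 3) / (t + 11)) +
    686 * Real.log ((t + 5) / (t - 5))

theorem lam4_eq (w : ℝ) (hw : 0 < w) (hw1 : w ≤ 1/22) : ∃ R : ℝ, |R| ≤ 10^13 ∧
    lam4 (1/w) * (1/w)^7 = 60211200 + w^2 * R := by
  have p1 : 0 < 1 + 3 * w := by linarith
  have p2 : 0 < 1 - 3 * w := by linarith
  have p3 : 0 < 1 + 11 * w := by linarith
  have p4 : 0 < 1 - 11 * w := by linarith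
  have hw2 : w^2 ≤ 1/484 := by
    calc w^2 ≤ (1/22)^2 := by gcongr
      _ = 1/484 := by norm_num
  have l1 : Real.log ((1/w + 3) / (1/w - 11)) = Real.log (1 + 3 * w) - Real.log (1 - 11 * w) := by
    rw [← Real.log_div p1.ne' p4.ne']
    congr 1
    have : 1/w - 11 ≠ 0 := by
      rw [show 1/w - 11 = (1 - 11 * w)/w by field_simp]
      positivity
    rw [div_eq_div_iff this p4.ne']
    field_simp
  have l2 : Real.log ((1/w - 3) / (1/w + 11)) = Real.log (1 - 3 * w) - Real.log (1 + 11 * w) := by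
    rw [← Real.log_div p2.ne' p3.ne']
    congr 1
    have : 1/w + 11 ≠ 0 := by
      rw [show 1/w + 11 = (1 + 11 * w)/w by field_simp]
      positivity
    rw [div_eq_div_iff this p3.ne']
    field_simp
  have l3 : Real.log ((1/w + 5) / (1/w - 5)) = Real.log ((1 + 5 * w) / (1 - 5 * w)) := by
    rw [log_ratio (1/w) 5 (by positivity)]
    congr 2 <;> field_simp
  have l4 : Real.log (1 + 3 * w) + Real.log (1 - 3 * w) = Real.log (1 - 9 * w^2) := by
    rw [← Real.log_mul p1.ne' p2.ne']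
    congr 1; ring
  have l5 : Real.log (1 + 11 * w) + Real.log (1 - 11 * w) = Real.log (1 - 121 * w^2) := by
    rw [← Real.log_mul p3.ne' p4.ne']
    congr 1; ring
  have l6 : Real.log (1 + 3 * w) - Real.log (1 - 3 * w) = Real.log ((1 + 3 * w) / (1 - 3 * w)) := by
    rw [← Real.log_div p1.ne' p2.ne']
  have l7 : Real.log (1 + 11 * w) - Real.log (1 - 11 * w) = Real.log ((1 + 11 * w) / (1 - 11 * w)) := by
    rw [← Real.log_div p3.ne' p4.ne']
  obtain ⟨r₁, hr₁, h1⟩ := series2 4 (9 * w^2) (by rw [abs_of_nonneg (by positivity)]; linarith)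
  obtain ⟨r₂, hr₂, h2⟩ := series2 4 (121 * w^2) (by rw [abs_of_nonneg (by positivity)]; linarith)
  obtain ⟨r₃, hr₃, h3⟩ := series 4 (3 * w) (by rw [abs_of_nonneg (by positivity)]; linarith)
  obtain ⟨r₄, hr₄, h4⟩ := series 4 (11 * w) (by rw [abs_of_nonneg (by positivity)]; linarith)
  obtain ⟨r₅, hr₅, h5⟩ := series 4 (5 * w) (by rw [abs_of_nonneg (by positivity)]; linarith)
  refine ⟨45 * 9^5 * r₁ - 45 * 121^5 * r₂ - 425 * 3^9 * r₃ - 425 * 11^9 * r₄ + 686 * 5^9 * r₅, ?_, ?_⟩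
  · rw [abs_le] at *
    constructor <;> linarith [hr₁.1, hr₁.2, hr₂.1, hr₂.2, hr₃.1, hr₃.2, hr₄.1, hr₄.2, hr₅.1, hr₅.2]
  have e1 : lam4 (1/w) = 45 * (1/w) * (Real.log (1 - 9 * w^2) - Real.log (1 - 121 * w^2)) -
      425 * (Real.log ((1 + 3 * w) / (1 - 3 * w)) + Real.log ((1 + 11 * w) / (1 - 11 * w))) +
      686 * Real.log ((1 + 5 * w) / (1 - 5 * w)) := by
    unfold lam4
    rw [l1, l2, l3, ← l4, ← l5, ← l6, ← l7]
    ring
  rw [e1, h1, h2, h3, h4, h5]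
  simp only [Finset.sum_range_succ, Finset.sum_range_zero]
  push_cast
  field_simp
  ring

theorem four_large (t : ℝ) (ht : 10^4 ≤ t) : 0 < lam4 t ∧ lam4 t ≤ 10^8 / t^7 := by
  have ht0 : 0 < t := by linarith
  obtain ⟨R, hR, h⟩ := lam4_eq (1/t) (by positivity) (by
    rw [div_le_div_iff₀ ht0 (by norm_num)]; linarith)
  rw [one_div_one_div] at h
  have hw : (1/t)^2 ≤ 1/10^8 := by
    calc (1/t)^2 ≤ (1/10^4)^2 := by gcongr
      _ = 1/10^8 := by norm_num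
  have hw0 : 0 ≤ (1/t)^2 := by positivity
  have hb : |(1/t)^2 * R| ≤ 10^5 := by
    rw [abs_mul, abs_of_nonneg hw0]
    calc (1/t)^2 * |R| ≤ (1/10^8) * 10^13 := by gcongr
      _ = 10^5 := by norm_num
  rw [abs_le] at hb
  have p7 : 0 < t^7 := by positivity
  refine ⟨(mul_pos_iff_of_pos_right p7).1 ?_, ?_⟩
  · rw [h]; linarith [hb.1]
  · rw [le_div_iff₀ p7, h]; linarith [hb.2]

theorem log_pell (x y v : ℝ) (hx : 0 < x) (hy : 0 < y) (hv : 0 < v) (hp : x^2 - 2 * y^2 = 1) :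
    Real.log ((v * (2 * x^2 - 1) + v) / (v * (2 * x^2 - 1) - v)) = 2 * Real.log (x / y) - Real.log 2 := by
  have e1 : (v * (2 * x^2 - 1) + v) / (v * (2 * x^2 - 1) - v) = (x / y)^2 / 2 := by
    have e2 : v * (2 * x^2 - 1) - v = 4 * v * y^2 := by linear_combination 2 * v * hp
    have e3 : v * (2 * x^2 - 1) + v = 2 * v * x^2 := by ring
    rw [e2, e3]
    field_simp
    ring
  rw [e1, Real.log_div (by positivity) (by norm_num), Real.log_pow]
  push_cast; ring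

theorem sharp_four : Sharp 4 (1/7) := by
  have key := sharp_of_family 4 7 8 (by norm_num) (10^50) (fun H => by
    obtain ⟨N, hN⟩ := exists_nat_gt (max H (10^4))
    obtain ⟨x, y, hy1, hy0, hxy, hp⟩ := pell N
    obtain ⟨t, ht⟩ : ∃ t : ℤ, t = 5 * (2 * x^2 - 1) := ⟨_, rfl⟩
    have hx0 : 0 < x := by linarith
    have hx1 : 1 ≤ x := by linarith
    have hNt : (N : ℤ) ≤ t := by
      rw [ht]
      nlinarith
    have htr : (N : ℝ) ≤ t := by exact_mod_cast hNt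
    have hH : H < t := lt_of_lt_of_le (lt_of_le_of_lt (le_max_left _ _) hN) htr
    have hTt : (10:ℝ)^4 ≤ t := ((lt_of_le_of_lt (le_max_right _ _) hN).le).trans htr
    have hTt' : (10:ℤ)^4 ≤ t := by exact_mod_cast hTt
    obtain ⟨h6, h7⟩ := four_large t hTt
    have ht0 : (0:ℝ) < t := by linarith
    have hxr : (0:ℝ) < x := by exact_mod_cast hx0
    have hyr : (0:ℝ) < y := by exact_mod_cast hy0
    have htx : (t:ℝ) = 5 * (2 * (x:ℝ)^2 - 1) := by rw [ht]; push_cast; ring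
    have hpr : (x:ℝ)^2 - 2 * (y:ℝ)^2 = 1 := by exact_mod_cast hp
    have hA1 : ((max (((t + 3 : ℤ) : ℚ) / ((t - 11 : ℤ) : ℚ)).num.natAbs
        (((t + 3 : ℤ) : ℚ) / ((t - 11 : ℤ) : ℚ)).den : ℕ) : ℝ) ≤ 2 * t := by
      refine height_div_le _ _ (by linarith) (by linarith) _ ?_ ?_ <;> push_cast <;> linarith
    have hA2 : ((max (((t - 3 : ℤ) : ℚ) / ((t + 11 : ℤ) : ℚ)).num.natAbs
        (((t - 3 : ℤ) : ℚ) / ((t + 11 : ℤ) : ℚ)).den : ℕ) : ℝ) ≤ 2 * t := by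
      refine height_div_le _ _ (by linarith) (by linarith) _ ?_ ?_ <;> push_cast <;> linarith
    have hA3 : ((max (((x : ℤ) : ℚ) / ((y : ℤ) : ℚ)).num.natAbs
        (((x : ℤ) : ℚ) / ((y : ℤ) : ℚ)).den : ℕ) : ℝ) ≤ x := by
      refine height_div_le _ _ hx0 hy0 _ le_rfl (by exact_mod_cast hxy)
    have hA1' := one_le_height (((t + 3 : ℤ) : ℚ) / ((t - 11 : ℤ) : ℚ))
    have hA2' := one_le_height (((t - 3 : ℤ) : ℚ) / ((t + 11 : ℤ) : ℚ))
    have hA3' := one_le_height (((x : ℤ) : ℚ) / ((y : ℤ) : ℚ))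
    have hB1 : ((max (45 * t - 425).natAbs 1 : ℕ) : ℝ) ≤ 100 * t := by
      refine B_le _ _ ?_ (by linarith)
      push_cast
      rw [abs_le]; constructor <;> linarith
    have hB1' : (t:ℝ) ≤ ((max (45 * t - 425).natAbs 1 : ℕ) : ℝ) := by
      refine le_B _ _ ?_
      push_cast
      rw [abs_of_pos (by linarith)]; linarith
    have hB2 : ((max (45 * t + 425).natAbs 1 : ℕ) : ℝ) ≤ 100 * t := by
      refine B_le _ _ ?_ (by linarith)
      push_cast
      rw [abs_le]; constructor <;> linarith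
    have hB2' := one_le_B (45 * t + 425)
    have hlog : Real.log (((t:ℝ) + 5) / ((t:ℝ) - 5)) = 2 * Real.log ((x:ℝ) / y) - Real.log 2 := by
      rw [htx]
      exact log_pell _ _ 5 hxr hyr (by norm_num) hpr
    have hform : form ![((t + 3 : ℤ) : ℚ) / ((t - 11 : ℤ) : ℚ), ((t - 3 : ℤ) : ℚ) / ((t + 11 : ℤ) : ℚ),
        ((x : ℤ) : ℚ) / ((y : ℤ) : ℚ), 2] ![45 * t - 425, 45 * t + 425, 1372, -686] = lam4 t := by
      unfold form lam4
      rw [Fin.sum_univ_four, hlog]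
      simp
      ring
    have hsize : size ![((t + 3 : ℤ) : ℚ) / ((t - 11 : ℤ) : ℚ), ((t - 3 : ℤ) : ℚ) / ((t + 11 : ℤ) : ℚ),
        ((x : ℤ) : ℚ) / ((y : ℤ) : ℚ), 2] ![45 * t - 425, 45 * t + 425, 1372, -686] =
        (((max (45 * t - 425).natAbs 1 : ℕ) : ℝ) * ((max (45 * t + 425).natAbs 1 : ℕ) : ℝ) *
          ((max (1372:ℤ).natAbs 1 : ℕ) : ℝ) * ((max (-686:ℤ).natAbs 1 : ℕ) : ℝ)) *
        (((max (((t + 3 : ℤ) : ℚ) / ((t - 11 : ℤ) : ℚ)).num.natAbs
        (((t + 3 : ℤ) : ℚ) / ((t - 11 : ℤ) : ℚ)).den : ℕ) : ℝ)^2 *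
        ((max (((t - 3 : ℤ) : ℚ) / ((t + 11 : ℤ) : ℚ)).num.natAbs
        (((t - 3 : ℤ) : ℚ) / ((t + 11 : ℤ) : ℚ)).den : ℕ) : ℝ)^2 *
        ((max (((x : ℤ) : ℚ) / ((y : ℤ) : ℚ)).num.natAbs
        (((x : ℤ) : ℚ) / ((y : ℤ) : ℚ)).den : ℕ) : ℝ)^2 *
        ((max (2:ℚ).num.natAbs (2:ℚ).den : ℕ) : ℝ)^2) := by
      unfold size
      rw [Fin.prod_univ_four, Fin.prod_univ_four]
      rfl
    have hD : ((max (1372:ℤ).natAbs 1 : ℕ) : ℝ) = 1372 := by
      have : (max (1372:ℤ).natAbs 1 : ℕ) = 1372 := by rfl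
      rw [this]; norm_num
    have hD' : ((max (-686:ℤ).natAbs 1 : ℕ) : ℝ) = 686 := by
      have : (max (-686:ℤ).natAbs 1 : ℕ) = 686 := by rfl
      rw [this]; norm_num
    have hmB := le_maxB ![45 * t - 425, 45 * t + 425, 1372, -686] 0
    have hmB' : (t:ℝ) ≤ maxB ![45 * t - 425, 45 * t + 425, 1372, -686] := hB1'.trans hmB
    refine ⟨![((t + 3 : ℤ) : ℚ) / ((t - 11 : ℤ) : ℚ), ((t - 3 : ℤ) : ℚ) / ((t + 11 : ℤ) : ℚ),
        ((x : ℤ) : ℚ) / ((y : ℤ) : ℚ), 2],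
      ![45 * t - 425, 45 * t + 425, 1372, -686], t, hH, ?_, ?_, ?_, ?_, ?_, ?_⟩
    · intro j
      fin_cases j
      · refine div_pos ?_ ?_
        · exact_mod_cast (by linarith : 0 < t + 3)
        · exact_mod_cast (by linarith : 0 < t - 11)
      · refine div_pos ?_ ?_
        · exact_mod_cast (by linarith : 0 < t - 3)
        · exact_mod_cast (by linarith : 0 < t + 11)
      · refine div_pos ?_ ?_
        · exact_mod_cast hx0
        · exact_mod_cast hy0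
      · norm_num
    · intro j
      fin_cases j
      · exact (by linarith : (0:ℤ) < 45 * t - 425).ne'
      · exact (by linarith : (0:ℤ) < 45 * t + 425).ne'
      · norm_num
      · norm_num
    · rw [hsize, hD, hD', height_two]
      generalize ((max (((t + 3 : ℤ) : ℚ) / ((t - 11 : ℤ) : ℚ)).num.natAbs
        (((t + 3 : ℤ) : ℚ) / ((t - 11 : ℤ) : ℚ)).den : ℕ) : ℝ) = A1 at *
      generalize ((max (((t - 3 : ℤ) : ℚ) / ((t + 11 : ℤ) : ℚ)).num.natAbs
        (((t - 3 : ℤ) : ℚ) / ((t + 11 : ℤ) : ℚ)).den : ℕ) : ℝ) = A2 at *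
      generalize ((max (((x : ℤ) : ℚ) / ((y : ℤ) : ℚ)).num.natAbs
        (((x : ℤ) : ℚ) / ((y : ℤ) : ℚ)).den : ℕ) : ℝ) = A3 at *
      generalize ((max (45 * t - 425).natAbs 1 : ℕ) : ℝ) = B1 at *
      generalize ((max (45 * t + 425).natAbs 1 : ℕ) : ℝ) = B2 at *
      have hB0 : 0 ≤ B1 := by linarith
      have hB00 : 0 ≤ B2 := by linarith
      calc (t:ℝ) ≤ (t * 1 * 1 * 1) * (1^2 * 1^2 * 1^2 * 1^2) := by linarith
        _ ≤ _ := by gcongr <;> first | assumption | norm_num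
    · rw [hsize, hD, hD', height_two]
      generalize ((max (((t + 3 : ℤ) : ℚ) / ((t - 11 : ℤ) : ℚ)).num.natAbs
        (((t + 3 : ℤ) : ℚ) / ((t - 11 : ℤ) : ℚ)).den : ℕ) : ℝ) = A1 at *
      generalize ((max (((t - 3 : ℤ) : ℚ) / ((t + 11 : ℤ) : ℚ)).num.natAbs
        (((t - 3 : ℤ) : ℚ) / ((t + 11 : ℤ) : ℚ)).den : ℕ) : ℝ) = A2 at *
      generalize ((max (((x : ℤ) : ℚ) / ((y : ℤ) : ℚ)).num.natAbs
        (((x : ℤ) : ℚ) / ((y : ℤ) : ℚ)).den : ℕ) : ℝ) = A3 at *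
      generalize ((max (45 * t - 425).natAbs 1 : ℕ) : ℝ) = B1 at *
      generalize ((max (45 * t + 425).natAbs 1 : ℕ) : ℝ) = B2 at *
      have hB0 : 0 ≤ B1 := by linarith
      have hB00 : 0 ≤ B2 := by linarith
      have hx2 : (x:ℝ)^2 ≤ t := by rw [htx]; nlinarith [hpr, sq_nonneg (y:ℝ)]
      calc _ ≤ ((100 * t) * (100 * t) * 1372 * 686) * ((2 * t)^2 * (2 * t)^2 * (x:ℝ)^2 * 2^2) := by
            gcongr
        _ ≤ ((100 * t) * (100 * t) * 1372 * 686) * ((2 * t)^2 * (2 * t)^2 * (t:ℝ) * 2^2) := by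
            gcongr
        _ = (100 * 100 * 1372 * 686 * 4 * 4 * 4) * (t:ℝ)^7 := by ring
        _ ≤ 10^50 * (t:ℝ)^7 := by gcongr; norm_num
    · rw [hform]; exact h6.ne'
    · rw [hform, abs_of_pos h6]
      refine h7.trans ?_
      rw [div_le_div_iff₀ (by positivity) (by positivity)]
      calc 10^8 * (t:ℝ)^8 = 10^8 * (t:ℝ) * (t:ℝ)^7 := by ring
        _ ≤ 10^50 * maxB ![45 * t - 425, 45 * t + 425, 1372, -686] * (t:ℝ)^7 := by
            gcongr <;> first | assumption | norm_num)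
  convert key using 1
  norm_num

end Pool.Agent.H609.LG
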