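import Pool.Agent.H609.LG.Base

/-!
# Two and three terms: the logarithm of `(t + 1) / (t - 1)` against the logarithm at the Legendre polynomial

`g t` is a multiple of the Legendre polynomial of degree `13`, and
`D log ((t + 1) / (t - 1)) - bb t * log ((g t + 1024) / (g t - 1024))` is about `c / t ^ 29`.
-/

set_option autoImplicit false

open Finset Filter Topology

namespace Pool.Agent.H609.LG

/-- the Legendre polynomial of degree `13`, up to a factor -/
def g {R : Type*} [CommRing R] (t : R) : R :=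
  (3900225) * t^13 + (-12168702) * t^11 + (14549535) * t^9 + (-8314020) * t^7 + (2297295) * t^5 + (-270270) * t^3 + (9009) * t

/-- the coefficient polynomial -/
def bb {R : Type*} [CommRing R] (t : R) : R :=
  (58561878375) * t^12 + (-163192434405) * t^10 + (169269290190) * t^8 + (-80191217106) * t^6 + (16979477515) * t^4 + (-1296036105) * t^2 + (15728640)

noncomputable def ga (u : ℝ) : ℝ := (3900225) + (-12168702) * u + (14549535) * u^2 + (-8314020) * u^3 + (2297295) * u^4 + (-270270) * u^5 + (9009) * u^6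

noncomputable def be (u : ℝ) : ℝ := (3900225/1024) + (-10868627/1024) * u + (5636673/512) * u^2 + (-13351851/2560) * u^3 + (3392503/3072) * u^4 + (-949477/11264) * u^5 + (1024/1001) * u^6

noncomputable def sg (u : ℝ) : ℝ := (1) + (1/3) * u + (1/5) * u^2 + (1/7) * u^3 + (1/9) * u^4 + (1/11) * u^5 + (1/13) * u^6 + (1/15) * u^7 + (1/17) * u^8 + (1/19) * u^9 + (1/21) * u^10 + (1/23) * u^11 + (1/25) * u^12 + (1/27) * u^13 + (1/29) * u^14

noncomputable def ep (u : ℝ) : ℝ := (1048576/11700675) + (1048576/3231615) * u + (-23916421841/190095) * u^2 + (2744885429/10005) * u^3 + (-707101538/3335) * u^4 + (50436386/725) * u^5 + (-781781/87) * u^6 + (9009/29) * u^7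

noncomputable def et (u : ℝ) : ℝ := (39697183145984/87) + (-2775079317903910589334/725) * u + (4673568889668343138794/145) * u^2 + (-3732431211673132803881968/30015) * u^3 + (32060261929711681200824656/110055) * u^4 + (-4636632303941175336637402216/10015005) * u^5 + (8808602954285266488267912/16675) * u^6 + (-28304407403139091263255216/63365) * u^7 + (18051819243460890116301072/63365) * u^8 + (-148821318883002632184196164/1077205) * u^9 + (54920861877339893798767404/1077205) * u^10 + (-76677222617659467255724272/5386025) * u^11 + (3199923822142791919807632/1077205) * u^12 + (-28762685288528363244072/63365) * u^13 + (164333765032812903528/3335) * u^14 + (-12116909005980066288/3335) * u^15 + (123186854672914032/725) * u^16 + (-130043351091654/29) * u^17 + (1462378375458/29) * u^18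

theorem id1 (u : ℝ) : 2 * sg u * ga u - 2048 * be u = 2 * u^13 * ep u := by
  unfold sg ga be ep
  ring

theorem id2 (u : ℝ) : 2 * ep u * ga u ^ 2 - (2/3) * 1024^3 * be u = u * et u := by
  unfold ep ga be et
  ring

/-- the linear form -/
noncomputable def lam (t : ℝ) : ℝ :=
  15375360 * Real.log ((t + 1) / (t - 1)) - bb t * Real.log ((g t + 1024) / (g t - 1024))

theorem g_eq (w : ℝ) (hw : w ≠ 0) : g (1/w) = ga (w^2) / w^13 := by
  unfold g ga
  field_simp

theorem bb_eq (w : ℝ) (hw : w ≠ 0) : bb (1/w) = 15375360 * be (w^2) / w^12 := by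
  unfold bb be
  field_simp
  ring

/-- the exact main part -/
theorem main_part (w S G B E T : ℝ) (hw : w ≠ 0) (hG : G ≠ 0) (h1 : 2 * S * G - 2048 * B = 2 * (w^2)^13 * E)
    (h2 : 2 * E * G ^ 2 - (2/3) * 1024^3 * B = w^2 * T) :
    2 * (S * w) - B / w^12 * (2 * (1024 * w^13 / G + (1024 * w^13 / G)^3/3)) = w^29 * T / G^3 := by
  have e1 : 2 * (S * w) - B / w^12 * (2 * (1024 * w^13 / G + (1024 * w^13 / G)^3/3)) =
      w * (2 * S * G - 2048 * B) / G - w^27 * ((2/3) * 1024^3 * B) / G^3 := by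
    field_simp
    ring
  have e2 : (2/3) * 1024^3 * B = 2 * E * G^2 - w^2 * T := by linarith
  rw [e1, h1, e2]
  field_simp
  ring

theorem lam_eq (w : ℝ) (hw : 0 < w) (hw1 : w ≤ 1/2) (hG : 0 < ga (w^2)) (hG2 : 2048 * w^13 ≤ ga (w^2)) :
    ∃ r₁ r₂ : ℝ, |r₁| ≤ 4 ∧ |r₂| ≤ 4 ∧
    lam (1/w) * (1/w)^29 = 15375360 * (et (w^2) / ga (w^2)^3) +
      (15375360 * w^2 * r₁ - 15375360 * 1024^5 * be (w^2) * w^24 / ga (w^2)^5 * r₂) := by
  obtain ⟨r₁, hr₁, h1⟩ := series 15 w (by rw [abs_of_pos hw]; exact hw1)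
  have hρ0 : 0 < 1024 * w^13 / ga (w^2) := by positivity
  have hρ : |1024 * w^13 / ga (w^2)| ≤ 1/2 := by
    rw [abs_of_pos hρ0, div_le_iff₀ hG]
    linarith
  obtain ⟨r₂, hr₂, h2⟩ := series 2 (1024 * w^13 / ga (w^2)) hρ
  refine ⟨r₁, r₂, hr₁, hr₂, ?_⟩
  have l1 : Real.log ((1/w + 1) / (1/w - 1)) = Real.log ((1 + w) / (1 - w)) := by
    rw [log_ratio (1/w) 1 (by positivity)]
    congr 2 <;> field_simp
  have l2 : Real.log ((g (1/w) + 1024) / (g (1/w) - 1024)) =
      Real.log ((1 + 1024 * w^13 / ga (w^2)) / (1 - 1024 * w^13 / ga (w^2))) := by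
    rw [g_eq w hw.ne', log_ratio _ 1024 (by positivity)]
    congr 2 <;> field_simp
  have hs : ∑ i ∈ range 15, w ^ (2 * i + 1) / (2 * (i:ℝ) + 1) = sg (w^2) * w := by
    simp only [Finset.sum_range_succ, Finset.sum_range_zero]
    unfold sg
    push_cast
    ring
  have hs2 : ∑ i ∈ range 2, (1024 * w^13 / ga (w^2)) ^ (2 * i + 1) / (2 * (i:ℝ) + 1) =
      1024 * w^13 / ga (w^2) + (1024 * w^13 / ga (w^2))^3/3 := by
    simp only [Finset.sum_range_succ, Finset.sum_range_zero]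
    norm_num
  have hm := main_part w (sg (w^2)) (ga (w^2)) (be (w^2)) (ep (w^2)) (et (w^2)) hw.ne' hG.ne'
    (id1 (w^2)) (id2 (w^2))
  unfold lam
  rw [l1, l2, h1, h2, hs, hs2, bb_eq w hw.ne']
  have e1 : (15375360 * (2 * (sg (w^2) * w) + r₁ * w ^ (2 * 15 + 1)) -
      15375360 * be (w^2) / w^12 * (2 * (1024 * w^13 / ga (w^2) + (1024 * w^13 / ga (w^2))^3/3) +
        r₂ * (1024 * w^13 / ga (w^2)) ^ (2 * 2 + 1))) =
      15375360 * (2 * (sg (w^2) * w) - be (w^2) / w^12 * (2 * (1024 * w^13 / ga (w^2) + (1024 * w^13 / ga (w^2))^3/3)))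
      + (15375360 * w^31 * r₁ - 15375360 * 1024^5 * be (w^2) * w^53 / ga (w^2)^5 * r₂) := by
    have hG' := hG.ne'
    generalize ga (w^2) = G at hG'
    norm_num only
    field_simp
    ring
  rw [e1, hm]
  field_simp

/-- everything at once, for small `w = 1 / t` -/
theorem two_small : ∀ᶠ w : ℝ in 𝓝[>] 0, 1 ≤ ga (w^2) ∧ ga (w^2) ≤ 10^7 ∧ 1 ≤ 15375360 * be (w^2) ∧
    15375360 * be (w^2) ≤ 10^11 ∧ 0 < lam (1/w) * (1/w)^29 ∧ lam (1/w) * (1/w)^29 ≤ 1 := by
  have c1 : Continuous fun w : ℝ => ga (w^2) := by unfold ga; fun_prop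
  have c2 : Continuous fun w : ℝ => 15375360 * be (w^2) := by unfold be; fun_prop
  have c2' : Continuous fun w : ℝ => be (w^2) := by unfold be; fun_prop
  have c3 : Continuous fun w : ℝ => et (w^2) := by unfold et; fun_prop
  have g0 : ga ((0:ℝ)^2) = 3900225 := by unfold ga; norm_num
  have b0 : be ((0:ℝ)^2) = 3900225/1024 := by unfold be; norm_num
  have e0 : et ((0:ℝ)^2) = 39697183145984/87 := by unfold et; norm_num
  have cF : ContinuousAt (fun w : ℝ => 15375360 * (et (w^2) / ga (w^2)^3) -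
      (15375360 * w^2 * 4 + 15375360 * 1024^5 * |be (w^2)| * |w|^24 / ga (w^2)^5 * 4)) 0 := by
    have : ga ((0:ℝ)^2) ≠ 0 := by rw [g0]; norm_num
    fun_prop (disch := positivity)
  have cF' : ContinuousAt (fun w : ℝ => 15375360 * (et (w^2) / ga (w^2)^3) +
      (15375360 * w^2 * 4 + 15375360 * 1024^5 * |be (w^2)| * |w|^24 / ga (w^2)^5 * 4)) 0 := by
    have : ga ((0:ℝ)^2) ≠ 0 := by rw [g0]; norm_num
    fun_prop (disch := positivity)
  have f1 : ∀ᶠ w : ℝ in 𝓝 0, 0 < 15375360 * (et (w^2) / ga (w^2)^3) -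
      (15375360 * w^2 * 4 + 15375360 * 1024^5 * |be (w^2)| * |w|^24 / ga (w^2)^5 * 4) := by
    refine cF.eventually_const_lt ?_
    beta_reduce
    rw [g0, b0, e0]
    norm_num
  have f2 : ∀ᶠ w : ℝ in 𝓝 0, 15375360 * (et (w^2) / ga (w^2)^3) +
      (15375360 * w^2 * 4 + 15375360 * 1024^5 * |be (w^2)| * |w|^24 / ga (w^2)^5 * 4) < 1 := by
    refine cF'.eventually_lt_const ?_
    beta_reduce
    rw [g0, b0, e0]
    norm_num
  have f3 : ∀ᶠ w : ℝ in 𝓝 0, 1 < ga (w^2) := c1.continuousAt.eventually_const_lt (by beta_reduce; rw [g0]; norm_num)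
  have f4 : ∀ᶠ w : ℝ in 𝓝 0, ga (w^2) < 10^7 := c1.continuousAt.eventually_lt_const (by beta_reduce; rw [g0]; norm_num)
  have f5 : ∀ᶠ w : ℝ in 𝓝 0, 1 < 15375360 * be (w^2) :=
    c2.continuousAt.eventually_const_lt (by beta_reduce; rw [b0]; norm_num)
  have f6 : ∀ᶠ w : ℝ in 𝓝 0, 15375360 * be (w^2) < 10^11 :=
    c2.continuousAt.eventually_lt_const (by beta_reduce; rw [b0]; norm_num)
  have f7 : ∀ᶠ w : ℝ in 𝓝 0, w < 1/2 := eventually_lt_nhds (by norm_num)
  have f8 : ∀ᶠ w : ℝ in 𝓝 0, 2048 * w^13 < 1 := by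
    have : ContinuousAt (fun w : ℝ => 2048 * w^13) 0 := by fun_prop
    exact this.eventually_lt_const (by norm_num)
  filter_upwards [f1.filter_mono nhdsWithin_le_nhds, f2.filter_mono nhdsWithin_le_nhds,
    f3.filter_mono nhdsWithin_le_nhds, f4.filter_mono nhdsWithin_le_nhds,
    f5.filter_mono nhdsWithin_le_nhds, f6.filter_mono nhdsWithin_le_nhds,
    f7.filter_mono nhdsWithin_le_nhds, f8.filter_mono nhdsWithin_le_nhds, self_mem_nhdsWithin]
    with w h1 h2 h3 h4 h5 h6 h7 h8 h9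
  have hw : 0 < w := h9
  have hG : 0 < ga (w^2) := by linarith
  obtain ⟨r₁, r₂, hr₁, hr₂, he⟩ := lam_eq w hw h7.le hG (by linarith)
  have hR : |15375360 * w^2 * r₁ - 15375360 * 1024^5 * be (w^2) * w^24 / ga (w^2)^5 * r₂| ≤
      15375360 * w^2 * 4 + 15375360 * 1024^5 * |be (w^2)| * |w|^24 / ga (w^2)^5 * 4 := by
    refine (abs_sub _ _).trans ?_
    have a1 : |15375360 * w^2 * r₁| ≤ 15375360 * w^2 * 4 := by
      rw [abs_mul, abs_of_nonneg (by positivity : (0:ℝ) ≤ 15375360 * w^2)]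
      gcongr
    have a2 : |15375360 * 1024^5 * be (w^2) * w^24 / ga (w^2)^5 * r₂| ≤
        15375360 * 1024^5 * |be (w^2)| * |w|^24 / ga (w^2)^5 * 4 := by
      rw [abs_mul, abs_div, abs_mul, abs_mul, abs_pow, abs_pow, abs_of_pos hG]
      rw [abs_of_nonneg (by positivity : (0:ℝ) ≤ 15375360 * 1024^5)]
      gcongr
    linarith
  rw [abs_le] at hR
  rw [he]
  exact ⟨h3.le, h4.le, h5.le, h6.le, by linarith [hR.1], by linarith [hR.2]⟩

end Pool.Agent.H609.LG
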