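import Pool.Agent.H609.LG.Two

/-!
# The families with two and with three terms
-/

set_option autoImplicit false

open Finset Filter Topology

namespace Pool.Agent.H609.LG

theorem two_large : ∃ T : ℝ, 2 ≤ T ∧ ∀ t : ℝ, T ≤ t → t^13 ≤ g t ∧ g t ≤ 10^7 * t^13 ∧ t^12 ≤ bb t ∧
    bb t ≤ 10^11 * t^12 ∧ 0 < lam t ∧ lam t ≤ 1 / t^29 := by
  have h := tendsto_inv_atTop_nhdsGT_zero.eventually two_small
  obtain ⟨T, hT⟩ := Filter.eventually_atTop.1 h
  refine ⟨max T 2, le_max_right _ _, fun t ht => ?_⟩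
  have ht2 : 2 ≤ t := (le_max_right _ _).trans ht
  have ht0 : 0 < t := by linarith
  obtain ⟨h1, h2, h3, h4, h5, h6⟩ := hT t ((le_max_left _ _).trans ht)
  have hg := g_eq t⁻¹ (inv_ne_zero ht0.ne')
  have hb := bb_eq t⁻¹ (inv_ne_zero ht0.ne')
  rw [one_div, inv_inv] at hg hb h5 h6
  have hg' : g t = ga (t⁻¹^2) * t^13 := by rw [hg]; field_simp
  have hb' : bb t = 15375360 * be (t⁻¹^2) * t^12 := by rw [hb]; field_simp
  have p13 : 0 < t^13 := by positivity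
  have p12 : 0 < t^12 := by positivity
  have p29 : 0 < t^29 := by positivity
  refine ⟨?_, ?_, ?_, ?_, ?_, ?_⟩
  · rw [hg']; nlinarith
  · rw [hg']; nlinarith
  · rw [hb']; nlinarith
  · rw [hb']; nlinarith
  · exact (mul_pos_iff_of_pos_right p29).1 h5
  · rw [le_div_iff₀ p29]; exact h6

theorem g_cast (t : ℤ) : ((g t : ℤ) : ℝ) = g (t : ℝ) := by
  unfold g; push_cast; ring

theorem bb_cast (t : ℤ) : ((bb t : ℤ) : ℝ) = bb (t : ℝ) := by
  unfold bb; push_cast; ring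

theorem height_two : ((max (2:ℚ).num.natAbs (2:ℚ).den : ℕ) : ℝ) = 2 := by
  have : (max (2:ℚ).num.natAbs (2:ℚ).den : ℕ) = 2 := by rfl
  rw [this]; norm_num

/-- the second rational number -/
def q (t : ℤ) : ℚ := ((g t + 1024 : ℤ) : ℚ) / ((g t - 1024 : ℤ) : ℚ)

/-- what is used about the second logarithm -/
theorem q_facts : ∃ T : ℝ, 2 ≤ T ∧ ∀ t : ℤ, T ≤ t → 0 < q t ∧ bb t ≠ 0 ∧
    ((max (q t).num.natAbs (q t).den : ℕ) : ℝ) ≤ 2 * 10^7 * (t:ℝ)^13 ∧
    (t:ℝ)^12 ≤ ((max (-bb t).natAbs 1 : ℕ) : ℝ) ∧ ((max (-bb t).natAbs 1 : ℕ) : ℝ) ≤ 10^11 * (t:ℝ)^12 ∧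
    15375360 * Real.log (((t:ℝ) + 1) / ((t:ℝ) - 1)) + ((-bb t : ℤ) : ℝ) * Real.log ((q t : ℚ) : ℝ) ≠ 0 ∧
    |15375360 * Real.log (((t:ℝ) + 1) / ((t:ℝ) - 1)) + ((-bb t : ℤ) : ℝ) * Real.log ((q t : ℚ) : ℝ)|
      ≤ 1 / (t:ℝ)^29 := by
  obtain ⟨T, hT2, hT⟩ := two_large
  refine ⟨T, hT2, fun t hTt => ?_⟩
  have ht2 : (2:ℝ) ≤ t := hT2.trans hTt
  have ht2' : (2:ℤ) ≤ t := by exact_mod_cast ht2
  obtain ⟨h1, h2, h3, h4, h5, h6⟩ := hT t hTt
  have ht0 : (0:ℝ) < t := by linarith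
  have p12 : (2:ℝ)^12 ≤ (t:ℝ)^12 := pow_le_pow_left₀ (by norm_num) ht2 12
  have p13 : (2:ℝ)^13 ≤ (t:ℝ)^13 := pow_le_pow_left₀ (by norm_num) ht2 13
  norm_num at p12 p13
  have p1 : (t:ℝ) ≤ (t:ℝ)^12 := le_self_pow₀ (by linarith) (by norm_num)
  have hg1 : (0:ℤ) < g t - 1024 := by
    have : (0:ℝ) < ((g t - 1024 : ℤ) : ℝ) := by
      push_cast; rw [g_cast]; linarith
    exact_mod_cast this
  have hg2 : (0:ℤ) < g t + 1024 := by linarith
  have hlam : 15375360 * Real.log (((t:ℝ) + 1) / ((t:ℝ) - 1)) + ((-bb t : ℤ) : ℝ) * Real.log ((q t : ℚ) : ℝ) =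
      lam t := by
    unfold lam q
    push_cast
    rw [g_cast, bb_cast]
    ring
  refine ⟨?_, ?_, ?_, ?_, ?_, ?_, ?_⟩
  · refine div_pos ?_ ?_
    · exact_mod_cast hg2
    · exact_mod_cast hg1
  · intro h0
    have : ((bb t : ℤ) : ℝ) = 0 := by rw [h0]; norm_num
    rw [bb_cast] at this
    linarith
  · refine height_div_le _ _ hg2 hg1 _ ?_ ?_
    · push_cast; rw [g_cast]; linarith
    · push_cast; rw [g_cast]; linarith
  · refine le_B _ _ ?_
    push_cast; rw [bb_cast, abs_neg]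
    exact h3.trans (le_abs_self _)
  · refine B_le _ _ ?_ (by linarith)
    push_cast; rw [bb_cast, abs_neg, abs_of_pos (by linarith)]
    exact h4
  · rw [hlam]; exact h5.ne'
  · rw [hlam, abs_of_pos h5]; exact h6

theorem sharp_two : Sharp 2 (1/40) := by
  obtain ⟨T, hT2, hT⟩ := q_facts
  have key := sharp_of_family 2 40 41 (by norm_num) (10^40) (fun H => by
    obtain ⟨N, hN⟩ := exists_nat_gt (max H T)
    obtain ⟨t, ht⟩ : ∃ t : ℤ, t = (N : ℤ) := ⟨_, rfl⟩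
    have htr : (t : ℝ) = N := by rw [ht]; push_cast; rfl
    have hH : H < t := by rw [htr]; exact lt_of_le_of_lt (le_max_left _ _) hN
    have hTt : T ≤ t := by rw [htr]; exact (lt_of_le_of_lt (le_max_right _ _) hN).le
    have ht2 : (2:ℝ) ≤ t := hT2.trans hTt
    have ht2' : (2:ℤ) ≤ t := by exact_mod_cast ht2
    obtain ⟨h1, h2, h3, h4, h5, h6, h7⟩ := hT t hTt
    have ht0 : (0:ℝ) < t := by linarith
    have p1 : (t:ℝ) ≤ (t:ℝ)^12 := le_self_pow₀ (by linarith) (by norm_num)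
    have hA1 : ((max (((t + 1 : ℤ) : ℚ) / ((t - 1 : ℤ) : ℚ)).num.natAbs
        (((t + 1 : ℤ) : ℚ) / ((t - 1 : ℤ) : ℚ)).den : ℕ) : ℝ) ≤ 2 * t := by
      refine height_div_le _ _ (by linarith) (by linarith) _ ?_ ?_ <;> push_cast <;> linarith
    have hA1' := one_le_height (((t + 1 : ℤ) : ℚ) / ((t - 1 : ℤ) : ℚ))
    have hA2' := one_le_height (q t)
    have hform : form ![((t + 1 : ℤ) : ℚ) / ((t - 1 : ℤ) : ℚ), q t] ![15375360, - bb t] =
        15375360 * Real.log (((t:ℝ) + 1) / ((t:ℝ) - 1)) + ((-bb t : ℤ) : ℝ) * Real.log ((q t : ℚ) : ℝ) := by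
      unfold form
      rw [Fin.sum_univ_two]
      simp only [Matrix.cons_val_zero, Matrix.cons_val_one]
      push_cast
      ring
    have hsize : size ![((t + 1 : ℤ) : ℚ) / ((t - 1 : ℤ) : ℚ), q t] ![15375360, - bb t] =
        (((max (15375360:ℤ).natAbs 1 : ℕ) : ℝ) * ((max (-bb t).natAbs 1 : ℕ) : ℝ)) *
        (((max (((t + 1 : ℤ) : ℚ) / ((t - 1 : ℤ) : ℚ)).num.natAbs
        (((t + 1 : ℤ) : ℚ) / ((t - 1 : ℤ) : ℚ)).den : ℕ) : ℝ)^2 *
        ((max (q t).num.natAbs (q t).den : ℕ) : ℝ)^2) := by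
      unfold size
      rw [Fin.prod_univ_two, Fin.prod_univ_two]
      rfl
    have hD : ((max (15375360:ℤ).natAbs 1 : ℕ) : ℝ) = 15375360 := by
      have : (max (15375360:ℤ).natAbs 1 : ℕ) = 15375360 := by rfl
      rw [this]; norm_num
    have hmB := le_maxB ![15375360, - bb t] 1
    have hmB' : (t:ℝ)^12 ≤ maxB ![15375360, - bb t] := h4.trans hmB
    refine ⟨![((t + 1 : ℤ) : ℚ) / ((t - 1 : ℤ) : ℚ), q t],
      ![15375360, - bb t], t, hH, ?_, ?_, ?_, ?_, ?_, ?_⟩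
    · intro j
      fin_cases j
      · refine div_pos ?_ ?_
        · exact_mod_cast (by linarith : 0 < t + 1)
        · exact_mod_cast (by linarith : 0 < t - 1)
      · exact h1
    · intro j
      fin_cases j
      · norm_num
      · exact neg_ne_zero.2 h2
    · rw [hsize, hD]
      generalize ((max (((t + 1 : ℤ) : ℚ) / ((t - 1 : ℤ) : ℚ)).num.natAbs
        (((t + 1 : ℤ) : ℚ) / ((t - 1 : ℤ) : ℚ)).den : ℕ) : ℝ) = A1 at *
      generalize ((max (q t).num.natAbs (q t).den : ℕ) : ℝ) = A2 at *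
      generalize ((max (-bb t).natAbs 1 : ℕ) : ℝ) = B at *
      have hB0 : 0 ≤ B := le_trans (by positivity) h4
      calc (t:ℝ) ≤ (1 * (t:ℝ)^12) * (1^2 * 1^2) := by linarith
        _ ≤ _ := by gcongr <;> first | assumption | norm_num
    · rw [hsize, hD]
      generalize ((max (((t + 1 : ℤ) : ℚ) / ((t - 1 : ℤ) : ℚ)).num.natAbs
        (((t + 1 : ℤ) : ℚ) / ((t - 1 : ℤ) : ℚ)).den : ℕ) : ℝ) = A1 at *
      generalize ((max (q t).num.natAbs (q t).den : ℕ) : ℝ) = A2 at *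
      generalize ((max (-bb t).natAbs 1 : ℕ) : ℝ) = B at *
      have hB0 : 0 ≤ B := le_trans (by positivity) h4
      calc _ ≤ (15375360 * (10^11 * (t:ℝ)^12)) * ((2 * t)^2 * (2 * 10^7 * (t:ℝ)^13)^2) := by gcongr
        _ = (15375360 * 10^11 * 4 * 4 * 10^14) * (t:ℝ)^40 := by ring
        _ ≤ 10^40 * (t:ℝ)^40 := by gcongr; norm_num
    · rw [hform]; exact h6
    · rw [hform]
      refine h7.trans ?_
      rw [div_le_div_iff₀ (by positivity) (by positivity)]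
      calc 1 * (t:ℝ)^41 = 1 * (t:ℝ)^12 * (t:ℝ)^29 := by ring
        _ ≤ 10^40 * maxB ![15375360, - bb t] * (t:ℝ)^29 := by gcongr; norm_num)
  convert key using 1
  norm_num

/-- arbitrarily large solutions of `x² - 2 y² = 1` -/
theorem pell (N : ℕ) : ∃ x y : ℤ, (N : ℤ) ≤ y ∧ 0 < y ∧ y ≤ x ∧ x^2 - 2 * y^2 = 1 := by
  induction N with
  | zero => exact ⟨3, 2, by norm_num, by norm_num, by norm_num, by norm_num⟩
  | succ n ih =>
    obtain ⟨x, y, h1, h2, h3, h4⟩ := ih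
    refine ⟨3 * x + 4 * y, 2 * x + 3 * y, by push_cast; linarith, by linarith, by linarith, ?_⟩
    linear_combination h4

theorem sharp_three : Sharp 3 (2/39) := by
  obtain ⟨T, hT2, hT⟩ := q_facts
  have key := sharp_of_family 3 39 41 (by norm_num) (10^50) (fun H => by
    obtain ⟨N, hN⟩ := exists_nat_gt (max H T)
    obtain ⟨x, y, hy1, hy0, hxy, hp⟩ := pell N
    obtain ⟨t, ht⟩ : ∃ t : ℤ, t = 2 * x^2 - 1 := ⟨_, rfl⟩
    have hx0 : 0 < x := by linarith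
    have hx1 : 1 ≤ x := by linarith
    have hNt : (N : ℤ) ≤ t := by
      rw [ht]
      nlinarith
    have htr : (N : ℝ) ≤ t := by exact_mod_cast hNt
    have hH : H < t := lt_of_lt_of_le (lt_of_le_of_lt (le_max_left _ _) hN) htr
    have hTt : T ≤ t := ((lt_of_le_of_lt (le_max_right _ _) hN).le).trans htr
    have ht2 : (2:ℝ) ≤ t := hT2.trans hTt
    have ht2' : (2:ℤ) ≤ t := by exact_mod_cast ht2
    obtain ⟨h1, h2, h3, h4, h5, h6, h7⟩ := hT t hTt
    have ht0 : (0:ℝ) < t := by linarith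
    have p1 : (t:ℝ) ≤ (t:ℝ)^12 := le_self_pow₀ (by linarith) (by norm_num)
    have hxr : (0:ℝ) < x := by exact_mod_cast hx0
    have hyr : (0:ℝ) < y := by exact_mod_cast hy0
    have htx : (t:ℝ) = 2 * (x:ℝ)^2 - 1 := by rw [ht]; push_cast; ring
    have hpr : (x:ℝ)^2 - 2 * (y:ℝ)^2 = 1 := by exact_mod_cast hp
    have hA1 : ((max (((x : ℤ) : ℚ) / ((y : ℤ) : ℚ)).num.natAbs
        (((x : ℤ) : ℚ) / ((y : ℤ) : ℚ)).den : ℕ) : ℝ) ≤ x := by
      refine height_div_le _ _ hx0 hy0 _ le_rfl (by exact_mod_cast hxy)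
    have hA1' := one_le_height (((x : ℤ) : ℚ) / ((y : ℤ) : ℚ))
    have hA2' := one_le_height (q t)
    have hlog : Real.log (((t:ℝ) + 1) / ((t:ℝ) - 1)) = 2 * Real.log ((x:ℝ) / y) - Real.log 2 := by
      have e1 : ((t:ℝ) + 1) / ((t:ℝ) - 1) = ((x:ℝ) / y)^2 / 2 := by
        have e2 : (t:ℝ) - 1 = 4 * (y:ℝ)^2 := by rw [htx]; linarith
        have e3 : (t:ℝ) + 1 = 2 * (x:ℝ)^2 := by rw [htx]; ring
        rw [e2, e3]
        field_simp
        ring
      rw [e1, Real.log_div (by positivity) (by norm_num), Real.log_pow]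
      push_cast; ring
    have hform : form ![((x : ℤ) : ℚ) / ((y : ℤ) : ℚ), 2, q t] ![2 * 15375360, -15375360, - bb t] =
        15375360 * Real.log (((t:ℝ) + 1) / ((t:ℝ) - 1)) + ((-bb t : ℤ) : ℝ) * Real.log ((q t : ℚ) : ℝ) := by
      unfold form
      rw [Fin.sum_univ_three, hlog]
      simp
      ring
    have hsize : size ![((x : ℤ) : ℚ) / ((y : ℤ) : ℚ), 2, q t] ![2 * 15375360, -15375360, - bb t] =
        (((max (2 * 15375360:ℤ).natAbs 1 : ℕ) : ℝ) * ((max (-15375360:ℤ).natAbs 1 : ℕ) : ℝ) *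
          ((max (-bb t).natAbs 1 : ℕ) : ℝ)) *
        (((max (((x : ℤ) : ℚ) / ((y : ℤ) : ℚ)).num.natAbs
        (((x : ℤ) : ℚ) / ((y : ℤ) : ℚ)).den : ℕ) : ℝ)^2 *
        ((max (2:ℚ).num.natAbs (2:ℚ).den : ℕ) : ℝ)^2 *
        ((max (q t).num.natAbs (q t).den : ℕ) : ℝ)^2) := by
      unfold size
      rw [Fin.prod_univ_three, Fin.prod_univ_three]
      rfl
    have hD : ((max (2 * 15375360:ℤ).natAbs 1 : ℕ) : ℝ) = 30750720 := by
      have : (max (2 * 15375360:ℤ).natAbs 1 : ℕ) = 30750720 := by rfl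
      rw [this]; norm_num
    have hD' : ((max (-15375360:ℤ).natAbs 1 : ℕ) : ℝ) = 15375360 := by
      have : (max (-15375360:ℤ).natAbs 1 : ℕ) = 15375360 := by rfl
      rw [this]; norm_num
    have hmB := le_maxB ![2 * 15375360, -15375360, - bb t] 2
    have hmB' : (t:ℝ)^12 ≤ maxB ![2 * 15375360, -15375360, - bb t] := h4.trans hmB
    refine ⟨![((x : ℤ) : ℚ) / ((y : ℤ) : ℚ), 2, q t],
      ![2 * 15375360, -15375360, - bb t], t, hH, ?_, ?_, ?_, ?_, ?_, ?_⟩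
    · intro j
      fin_cases j
      · refine div_pos ?_ ?_
        · exact_mod_cast hx0
        · exact_mod_cast hy0
      · norm_num
      · exact h1
    · intro j
      fin_cases j
      · norm_num
      · norm_num
      · exact neg_ne_zero.2 h2
    · rw [hsize, hD, hD', height_two]
      generalize ((max (((x : ℤ) : ℚ) / ((y : ℤ) : ℚ)).num.natAbs
        (((x : ℤ) : ℚ) / ((y : ℤ) : ℚ)).den : ℕ) : ℝ) = A1 at *
      generalize ((max (q t).num.natAbs (q t).den : ℕ) : ℝ) = A2 at *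
      generalize ((max (-bb t).natAbs 1 : ℕ) : ℝ) = B at *
      have hB0 : 0 ≤ B := le_trans (by positivity) h4
      calc (t:ℝ) ≤ (1 * 1 * (t:ℝ)^12) * (1^2 * 1^2 * 1^2) := by linarith
        _ ≤ _ := by gcongr <;> first | assumption | norm_num
    · rw [hsize, hD, hD', height_two]
      generalize ((max (((x : ℤ) : ℚ) / ((y : ℤ) : ℚ)).num.natAbs
        (((x : ℤ) : ℚ) / ((y : ℤ) : ℚ)).den : ℕ) : ℝ) = A1 at *
      generalize ((max (q t).num.natAbs (q t).den : ℕ) : ℝ) = A2 at *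
      generalize ((max (-bb t).natAbs 1 : ℕ) : ℝ) = B at *
      have hx2 : (x:ℝ)^2 ≤ t := by rw [htx]; nlinarith [hpr, sq_nonneg (y:ℝ)]
      have hB0 : 0 ≤ B := le_trans (by positivity) h4
      calc _ ≤ (30750720 * 15375360 * (10^11 * (t:ℝ)^12)) * ((x:ℝ)^2 * 2^2 * (2 * 10^7 * (t:ℝ)^13)^2) := by
            gcongr
        _ ≤ (30750720 * 15375360 * (10^11 * (t:ℝ)^12)) * ((t:ℝ) * 2^2 * (2 * 10^7 * (t:ℝ)^13)^2) := by
            gcongr
        _ = (30750720 * 15375360 * 10^11 * 4 * 4 * 10^14) * (t:ℝ)^39 := by ring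
        _ ≤ 10^50 * (t:ℝ)^39 := by gcongr; norm_num
    · rw [hform]; exact h6
    · rw [hform]
      refine h7.trans ?_
      rw [div_le_div_iff₀ (by positivity) (by positivity)]
      calc 1 * (t:ℝ)^41 = 1 * (t:ℝ)^12 * (t:ℝ)^29 := by ring
        _ ≤ 10^50 * maxB ![2 * 15375360, -15375360, - bb t] * (t:ℝ)^29 := by gcongr; norm_num)
  convert key using 1
  norm_num

end Pool.Agent.H609.LG
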